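import Pool.Agent.W908.Q.QDefs

/-! Languages that are easy on average under a samplable distribution. -/

set_option autoImplicit false

namespace Pool.Agent.W908.RS

open Pool.Agent.NPC Pool.Agent.H620R2.Gauge

/-- The language `L` is easy on average relative to the oracle `A`, for the samples
`G ⟨1^n, r⟩` with `r` uniform of length `q n`, with error `1 / (n + 1) ^ c`: some function `D`
computable in deterministic polynomial time relative to `A`, given `1^n` and the sample, decides
whether the sample is in `L` for all but a fraction of at most `1 / (n + 1) ^ c` of the strings `r`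
of length `q n`, for every `n`. -/
def EasyOnSamples (A : Oracle) (L : Set (List Bool)) (G : List Bool → List Bool)
    (q : Polynomial ℕ) (c : ℕ) : Prop :=
  ∃ D : List Bool → List Bool, IsFP A D ∧ ∀ n : ℕ,
    (1 - 1 / ((n : ℝ) + 1) ^ c) * 2 ^ (q.eval n) ≤
      ({r : Fin (q.eval n) → Bool |
        D (pairBits (List.replicate n true) (G (pairBits (List.replicate n true) (List.ofFn r)))) =
          [true] ↔ G (pairBits (List.replicate n true) (List.ofFn r)) ∈ L}.ncard : ℝ)

end Pool.Agent.W908.RS
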