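import Pool.Agent.W908.Q.Q3
import Pool.Agent.H516R2.EQP3.PU

/-!
# A solver that evaluates quantum circuits
-/

set_option autoImplicit false

namespace Pool.Agent.W908.RS

open Pool.Agent.NPC Pool.Agent.H620R2.Gauge Pool.Agent.H622R2
open Pool.Agent.W908.PS (cmb gq cmb_congr length_gq tbq tbl tbq_map poly_tbq N1 poly_unary)
open Pool.Agent.W908.QS (QAlg qgen qgen_surj qbd qbd_len qbd_ques acc_local)
open Pool.Agent.H516R2.EQP (base)

/-- the oracle without hidden instances -/
def dfl : Oracle := fun z =>
  if z.take 2 = [false, false] then base (z.drop (2 + (z.length - 54) / 49)) else false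

/-- the oracle given by a table -/
def tabD (t : List Bool) : Oracle := fun q =>
  if idx q < t.length then t.getD (idx q) false else dfl q

open Classical in
/-- The solver: it evaluates uniform families of quantum circuits whose oracle is made of the solver
(for shorter strings) and of a table. -/
noncomputable def SolE (z : List Bool) : Bool :=
  decide (1 / 2 ≤ accProb (cmb (fun q => if _h : q.length < z.length then SolE q else false)
    (tabD (unpair (unpair (unpair z).2).2).1)) ((qgen (unpair z).1).1.C (unpair (unpair z).2).1))
termination_by z.length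

/-- a question to the solver -/
def ecode (e x t p : List Bool) : List Bool := pairBits e (pairBits x (pairBits t p))

theorem length_ecode (e x t p : List Bool) : p.length ≤ (ecode e x t p).length := by
  unfold ecode
  simp only [A2.length_pairBits]
  omega

open Classical in
theorem SolE_ecode {e x t p : List Bool} (hp : (qbd (qgen e).1).eval x.length < p.length) :
    SolE (ecode e x t p) = decide (1 / 2 ≤ accProb (cmb SolE (tabD t)) ((qgen e).1.C x)) := by
  rw [SolE]
  have h0 := length_ecode e x t p
  have e1 : (unpair (ecode e x t p)).1 = e := by simp only [ecode, unpair_pairBits]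
  have e2 : (unpair (unpair (ecode e x t p)).2).1 = x := by simp only [ecode, unpair_pairBits]
  have e3 : (unpair (unpair (unpair (ecode e x t p)).2).2).1 = t := by
    simp only [ecode, unpair_pairBits]
  rw [e1, e2, e3, decide_eq_decide]
  have h1 := acc_local (qgen e).1 (x := x) (B := (qbd (qgen e).1).eval x.length)
    (O := cmb (fun q => if _h : q.length < (ecode e x t p).length then
      SolE q else false) (tabD t)) (O' := cmb SolE (tabD t)) le_rfl fun q hq =>
        cmb_congr (fun q' hq' => by rw [dif_pos (by omega)]) rfl
  rw [h1]

/-- the question about the sample -/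
def evs (e : List Bool) (B : Polynomial ℕ) (s : List Bool) : List (List Bool) :=
  [true :: true :: false :: ecode e (unpair (unpair s).1).2 (unpair s).2
    (List.replicate (B.eval (unpair (unpair s).1).2.length) true)]

theorem poly_evs (e : List Bool) (B : Polynomial ℕ) : Poly (evs e B) := by
  have hx : Poly (fun s : List Bool => (unpair (unpair s).1).2) :=
    Poly.snd (poly_unpair.comp (Poly.fst poly_unpair))
  have hB : UPoly (fun s : List Bool => B.eval (unpair (unpair s).1).2.length) :=
    UPoly.eval (UPoly.length hx) B
  refine Poly.cons (Poly.cons (NPC.Poly.const true) (Poly.cons (NPC.Poly.const true)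
    (Poly.cons (NPC.Poly.const false) ?_))) (NPC.Poly.const [])
  exact poly_pairBits (NPC.Poly.const e) (poly_pairBits hx (poly_pairBits
    (Poly.snd poly_unpair) (poly_unary hB)))

/-- the classical algorithm -/
noncomputable def evl (e : List Bool) (B P : Polynomial ℕ) (G : Oracle) (v : List Bool) :
    List Bool := (evs e B (pairBits v ((tbq P v).map (cmb SolE G)))).map (cmb SolE G)

theorem isFP_evl (e : List Bool) (B P : Polynomial ℕ) (G : Oracle) :
    IsFP (cmb SolE G) (evl e B P G) := by
  have h1 : IsFP (cmb SolE G) (fun v => pairBits v ((tbq P v).map (cmb SolE G))) :=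
    IsFP.tt (H := fun p => pairBits p.1 p.2) (poly_tbq P)
      (poly_pairBits (Poly.fst Poly.id) (Poly.snd Poly.id))
  have h2 : IsFP (cmb SolE G) (fun s => (evs e B s).map (cmb SolE G)) :=
    IsFP.tt (H := fun p => p.2) (poly_evs e _) (Poly.snd Poly.id)
  exact h2.comp h1

open Classical in
theorem evl_val {e : List Bool} {P : Polynomial ℕ} {G : Oracle} {n : ℕ} {x : List Bool} :
    evl e (qbd (qgen e).1 + 1) P G (pairBits (List.replicate n true) x) =
      [decide (1 / 2 ≤ accProb (cmb SolE (tabD (tbl P G n))) ((qgen e).1.C x))] := by
  unfold evl
  rw [tbq_map]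
  unfold evs
  simp only [unpair_pairBits, List.map_cons, List.map_nil, List.length_replicate]
  congr 1
  show SolE (ecode _ _ _ _) = _
  rw [SolE_ecode]
  rw [List.length_replicate, Polynomial.eval_add, Polynomial.eval_one]
  exact Nat.lt_succ_self _

end Pool.Agent.W908.RS
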