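import Pool.Agent.W908.R.R1
import Pool.Agent.H516R2.EQP3.QU
import Pool.Agent.H516R2.EQP2.RT
import Pool.Agent.H516R2.EQP.All

/-!
# The hidden instances
-/

set_option autoImplicit false

namespace Pool.Agent.W908.RS

open Pool.Agent.NPC Pool.Agent.H620R2.Gauge Pool.Agent.H622R2 Finset H568R2 Pool.Agent.H676
open Pool.Agent.W908.PS (cmb gq cmb_congr length_gq pwd length_pwd qb qb_spec qq out_congr)
open Pool.Agent.W908.QS (QAlg qgen qgen_surj qbd qbd_len qbd_ques acc_local)
open Pool.Agent.H516R2.EQP Pool.Agent.H516R2.EQP2 Pool.Agent.H516R2.EQP3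

/-- an algorithm, a bound for the quantified strings and a number of quantifiers -/
abbrev Tm : Type := Alg × Polynomial ℕ × ℕ

/-- a bound for the lengths of the inputs of the algorithm -/
noncomputable def lenT (T : Tm) : Polynomial ℕ :=
  Polynomial.X + Polynomial.C T.2.2 * (Polynomial.C 2 * T.2.1 + Polynomial.C 1)

theorem lenT_eval (T : Tm) (n : ℕ) : (lenT T).eval n = n + T.2.2 * (2 * T.2.1.eval n + 1) := by
  simp [lenT]

noncomputable def PT (T : Tm) : Polynomial ℕ :=
  T.1.p.comp (lenT T) + lenT T + Polynomial.C 2 + Polynomial.C 4 * Polynomial.X +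
    Polynomial.C T.2.2

theorem PT_eval (T : Tm) (n : ℕ) : (PT T).eval n =
    T.1.p.eval ((lenT T).eval n) + (lenT T).eval n + 2 + 4 * n + T.2.2 := by
  simp [PT, Polynomial.eval_comp]

theorem all_H2 : St_H2 := H2 DS all_H1

noncomputable def k0 (T : Tm) : ℕ := Classical.choose (all_H2 T.2.2 (PT T))

theorem k0_spec (T : Tm) : ∀ κ ≥ k0 T,
    ∀ (m : ℕ) (F : List Bool → (Cube κ → Bool) → Bool) (y : List Bool),
    Adm κ ((PT T).eval κ) m T.2.2 F y → (∃ a, Yes a ∧ QF m F T.2.2 true y a = false) ∨
      ∃ a, No a ∧ QF m F T.2.2 true y a = true :=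
  Classical.choose_spec (all_H2 T.2.2 (PT T))

theorem all_PU : St_PU := PU AL

/-- the oracle with the instance `a` in the block `u` -/
noncomputable def OA (B : Oracle) (u : List Bool) (a : Cube (H516R2.EQP3.kap u) → Bool) : Oracle :=
  cmb SolE (put u a B)

theorem dtr_OA (B : Oracle) (u z : List Bool) :
    DTr 1 (fun a : Cube (H516R2.EQP3.kap u) → Bool => OA B u a z) := by
  have key : ∀ z : List Bool, DTr 1 (fun a : Cube (H516R2.EQP3.kap u) → Bool => put u a B z) := by
    intro z
    rcases all_PU.2.2.2.2.2.2 u z B with ⟨c, hc⟩ | ⟨i, c, hc⟩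
    · exact DTr.const ⟨c, hc⟩
    · refine Or.inr ⟨i, fun b => ⟨b ^^ c, fun a => ?_⟩⟩
      show put u (Function.update a i b) B z = _
      rw [hc, Function.update_self]
  match z with
  | [] => exact DTr.const ⟨false, fun _ => rfl⟩
  | false :: q => exact key (false :: q)
  | true :: false :: q => exact key (true :: q)
  | true :: true :: false :: q => exact DTr.const ⟨SolE q, fun _ => rfl⟩
  | true :: true :: true :: q => exact key (str q.length)
  | [true] => exact DTr.const ⟨false, fun _ => rfl⟩
  | [true, true] => exact DTr.const ⟨false, fun _ => rfl⟩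

/-- the answers of the algorithm as a function of the instance -/
noncomputable def FA (T : Tm) (B : Oracle) (u y : List Bool) (a : Cube (H516R2.EQP3.kap u) → Bool) : Bool :=
  decide (T.1.out (OA B u a) y = some [true])

/-- the algorithm is wrong at the instance -/
def Err (T : Tm) (B : Oracle) (u : List Bool) (a : Cube (H516R2.EQP3.kap u) → Bool) : Prop :=
  (Yes a ∧ QF (T.2.1.eval u.length) (FA T B u) T.2.2 true u a = false) ∨
    (No a ∧ QF (T.2.1.eval u.length) (FA T B u) T.2.2 true u a = true)

theorem exists_err (T : Tm) (B : Oracle) (u : List Bool) (hu : k0 T ≤ u.length) :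
    ∃ a, Err T B u a := by
  have hk : u.length ≤ H516R2.EQP3.kap u := by unfold H516R2.EQP3.kap mu; omega
  have h1 := k0_spec T (H516R2.EQP3.kap u) (hu.trans hk) (T.2.1.eval u.length) (FA T B u) u ?_
  · rcases h1 with ⟨a, ha⟩ | ⟨a, ha⟩
    · exact ⟨a, Or.inl ha⟩
    · exact ⟨a, Or.inr ha⟩
  · have h2 : u.length + T.2.2 * (2 * T.2.1.eval u.length + 1) ≤ (lenT T).eval (H516R2.EQP3.kap u) := by
      rw [← lenT_eval]
      exact eval_mono _ hk
    refine ⟨?_, ?_, ?_⟩
    · rw [PT_eval]
      omega
    · rw [PT_eval]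
      omega
    · intro y hy
      have h3 := RT (Cube (H516R2.EQP3.kap u)) (OA B u) T.1 y 1 (dtr_OA B u)
      refine h3.mono ?_
      have h4 : T.1.p.eval y.length ≤ T.1.p.eval ((lenT T).eval (H516R2.EQP3.kap u)) :=
        eval_mono _ (hy.trans h2)
      rw [PT_eval]
      omega

open Classical in
/-- an instance at which the algorithm is wrong -/
noncomputable def ach (T : Tm) (B : Oracle) (u : List Bool) : Cube (H516R2.EQP3.kap u) → Bool :=
  if hu : k0 T ≤ u.length then Classical.choose (exists_err T B u hu) else fun _ => false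

theorem ach_spec (T : Tm) (B : Oracle) (u : List Bool) (hu : k0 T ≤ u.length) :
    Err T B u (ach T B u) := by
  unfold ach
  rw [dif_pos hu]
  exact Classical.choose_spec (exists_err T B u hu)

theorem exists_enum : ∃ f : ℕ → Tm, Function.Surjective f := by
  have h1 := CC.poly_countable
  haveI : Nonempty Tm := ⟨(⟨fun x => x, polyTime_id, 0⟩, 0, 0)⟩
  exact exists_surjective_nat Tm

noncomputable def enum : ℕ → Tm := Classical.choose exists_enum

theorem enum_surj : Function.Surjective enum := Classical.choose_spec exists_enum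

/-- the lengths of the passwords -/
noncomputable def lev : ℕ → ℕ
  | 0 => k0 (enum 0)
  | j + 1 => k0 (enum (j + 1)) + (lev j + (qb (enum j).1).eval ((lenT (enum j)).eval (lev j)) + 1)

theorem k0_le (j : ℕ) : k0 (enum j) ≤ lev j := by
  cases j with
  | zero => exact le_rfl
  | succ j => exact Nat.le_add_right _ _

theorem lev_succ (j : ℕ) : lev j < lev (j + 1) ∧
    (qb (enum j).1).eval ((lenT (enum j)).eval (lev j)) < lev (j + 1) := by
  constructor <;> · simp only [lev]; omega

theorem lev_mono : StrictMono lev := strictMono_nat_of_lt_succ fun j => (lev_succ j).1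

theorem le_lev (j : ℕ) : j ≤ lev j := lev_mono.le_apply

/-- the hidden part with the first `j` instances -/
noncomputable def st (R : Oracle) : ℕ → Oracle
  | 0 => dfl
  | j + 1 => put (pwd R (lev j)) (ach (enum j) (st R j) (pwd R (lev j))) (st R j)

/-- the hidden part -/
noncomputable def GR (R : Oracle) : Oracle := fun z => st R z.length z

/-- The oracle. -/
noncomputable def OC (R : Oracle) : Oracle := cmb SolE (GR R)

theorem blen_eq (u : List Bool) : blen u = 54 + 49 * u.length := by
  unfold blen H516R2.EQP3.kap mu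
  omega

theorem st_diff (R : Oracle) (j : ℕ) (z : List Bool) : ∀ d, st R (j + d) z ≠ st R j z →
    ∃ i, j ≤ i ∧ i < j + d ∧ InB (pwd R (lev i)) z := by
  intro d
  induction d with
  | zero => exact fun h => absurd rfl h
  | succ d ih =>
    intro h
    by_cases h1 : InB (pwd R (lev (j + d))) z
    · exact ⟨j + d, by omega, by omega, h1⟩
    · have h2 : st R (j + (d + 1)) z = st R (j + d) z := all_PU.2.1 _ z _ _ h1
      rw [h2] at h
      obtain ⟨i, h3, h4, h5⟩ := ih h
      exact ⟨i, h3, by omega, h5⟩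

theorem GR_diff {R : Oracle} {j : ℕ} {z : List Bool} (h : GR R z ≠ st R j z) :
    ∃ i, j ≤ i ∧ InB (pwd R (lev i)) z := by
  rcases le_total j z.length with h1 | h1
  · obtain ⟨d, hd⟩ := Nat.exists_eq_add_of_le h1
    unfold GR at h
    rw [hd] at h
    obtain ⟨i, h2, -, h3⟩ := st_diff R j z d h
    exact ⟨i, h2, h3⟩
  · obtain ⟨d, hd⟩ := Nat.exists_eq_add_of_le h1
    unfold GR at h
    rw [hd] at h
    obtain ⟨i, h2, -, h3⟩ := st_diff R z.length z d h.symm
    have h4 := h3.2
    rw [blen_eq, length_pwd] at h4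
    have h5 := le_lev i
    omega

theorem GR_eq {R : Oracle} {j : ℕ} {z : List Bool} (h : z.length < lev j) : GR R z = st R j z := by
  by_contra h1
  obtain ⟨i, h2, h3⟩ := GR_diff h1
  have h4 := h3.2
  rw [blen_eq, length_pwd] at h4
  have h5 := lev_mono.monotone h2
  omega

theorem al_dfl (u : List Bool) : al u dfl = 0 := by
  unfold al
  rw [AL.1 (H516R2.EQP3.kap u) (tlU u dfl) base fun w hw => ?_]
  · exact AL.2.1 _
  · show dfl (false :: false :: (u ++ w)) = base w
    unfold dfl
    rw [if_pos (by rfl)]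
    have h1 : (false :: false :: (u ++ w)).length = 54 + 49 * u.length := by
      simp only [List.length_cons, List.length_append, hw]
      unfold H516R2.EQP3.kap mu
      omega
    rw [h1, show (54 + 49 * u.length - 54) / 49 = u.length by omega, PU_drop]

theorem al_OC (R : Oracle) (u : List Bool) : al u (OC R) = al u (GR R) := by
  refine all_PU.2.2.2.2.1 u _ _ fun z hz => ?_
  obtain ⟨h1, -⟩ := hz
  match z with
  | [] => rw [Nat.add_comm] at h1; simp at h1
  | false :: q => rfl
  | true :: q =>
    rw [Nat.add_comm] at h1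
    simp at h1

/-- the instance in the block of a password -/
theorem al_pwd (R : Oracle) (j : ℕ) : al (pwd R (lev j)) (GR R) =
    al (pwd R (lev j)) (put (pwd R (lev j)) (ach (enum j) (st R j) (pwd R (lev j))) (st R j)) := by
  refine all_PU.2.2.2.2.1 _ _ _ fun z hz => ?_
  have h1 : GR R z = st R (j + 1) z := by
    by_contra h2
    obtain ⟨i, h3, h4⟩ := GR_diff h2
    have h5 := hz.2.symm.trans h4.2
    rw [blen_eq, blen_eq, length_pwd, length_pwd] at h5
    have h6 := lev_mono (show j < i by omega)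
    omega
  exact h1

theorem al_other (R : Oracle) (u : List Bool) (hu : ∀ j, u ≠ pwd R (lev j)) :
    al u (GR R) = 0 := by
  rw [← al_dfl u]
  refine all_PU.2.2.2.2.1 u _ _ fun z hz => ?_
  by_contra h1
  obtain ⟨i, -, h2⟩ := GR_diff (j := 0) h1
  exact hu i (PU_inj _ _ _ hz h2)

theorem al_cases (R : Oracle) (u : List Bool) : al u (OC R) = 0 ∨ al u (OC R) = 1 / 2 := by
  rw [al_OC]
  by_cases hu : ∀ j, u ≠ pwd R (lev j)
  · exact Or.inl (al_other R u hu)
  · push Not at hu
    obtain ⟨j, rfl⟩ := hu
    rw [al_pwd]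
    have h1 := ach_spec (enum j) (st R j) (pwd R (lev j)) (by rw [length_pwd]; exact k0_le j)
    have h2 := all_PU.2.2.2.2.2.1 (pwd R (lev j)) (ach (enum j) (st R j) (pwd R (lev j))) (st R j)
    rcases h1 with h1 | h1
    · exact Or.inr (h2.1 h1.1)
    · exact Or.inl (h2.2 h1.1)

/-- The language. -/
def LC (R : Oracle) : Set (List Bool) := {u | al u (OC R) = 1 / 2}

theorem isEQP_LC (R : Oracle) : IsEQP 6 (OC R) (LC R) := by
  obtain ⟨C, hC, h⟩ := QU (task_QF QL QG)
  refine ⟨C, hC, fun u => ⟨(h u).1, fun hu => ?_, fun hu => ?_⟩⟩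
  · rw [(h u).2, show al u (OC R) = 1 / 2 from hu]
    norm_num
  · rw [(h u).2, (al_cases R u).resolve_right hu]
    norm_num

theorem not_isPH_LC (R : Oracle) : ¬ IsPH (OC R) (LC R) := by
  rintro ⟨V, p, k, ⟨M, hM⟩, hL⟩
  obtain ⟨j, hj⟩ := enum_surj (M, p, k)
  obtain ⟨u, hu⟩ : ∃ u, u = pwd R (lev j) := ⟨_, rfl⟩
  have hul : u.length = lev j := by rw [hu, length_pwd]
  obtain ⟨a, ha⟩ : ∃ a, a = ach (enum j) (st R j) u := ⟨_, rfl⟩
  have herr : Err (enum j) (st R j) u a := by
    rw [ha]
    exact ach_spec _ _ _ (by rw [hul]; exact k0_le j)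
  have hal : al u (OC R) = al u (put u a (st R j)) := by
    rw [al_OC, ha, hu]
    exact al_pwd R j
  have hst : st R (j + 1) = put u a (st R j) := by rw [ha, hu]; rfl
  have hF : ∀ y : List Bool, y.length ≤ u.length + k * (2 * p.eval u.length + 1) →
      FA (enum j) (st R j) u y a = decide (M.out (OC R) y = some [true]) := by
    intro y hy
    unfold FA
    rw [hj]
    have h1 := (out_congr M (O := OC R) (O' := OA (st R j) u a) (x := y) fun q hq => ?_).1
    · rw [h1]
    · refine cmb_congr (fun _ _ => rfl) ?_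
      rw [← hst]
      refine (GR_eq ?_).symm
      have h2 := length_gq q
      have h3 := qb_spec M _ _ q hq
      have h4 := (lev_succ j).2
      rw [lenT_eval, hj] at h4
      rw [hul] at hy
      have h5 := eval_mono (qb M) hy
      simp only at h4
      omega
  have hQ := DQ M (OC R) V _ (FA (enum j) (st R j) u) a (p.eval u.length) k true u hM hF
  have hLu := hL u
  have hmem : u ∈ LC R ↔ al u (put u a (st R j)) = 1 / 2 := by
    show al u (OC R) = 1 / 2 ↔ _
    rw [hal]
  have h2 := all_PU.2.2.2.2.2.1 u a (st R j)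
  rw [hmem, hQ] at hLu
  unfold Err at herr
  rw [hj] at herr hLu
  simp only at herr
  rcases herr with ⟨h3, h4⟩ | ⟨h3, h4⟩
  · have h5 := hLu.1 (h2.1 h3)
    rw [h4] at h5
    exact absurd h5 (by decide)
  · have h5 := hLu.2 h4
    rw [h2.2 h3] at h5
    norm_num at h5

end Pool.Agent.W908.RS
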