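import Pool.Agent.W908.R.R2
import Pool.Agent.W908.Q.Q4

/-!
# The average case
-/

set_option autoImplicit false

namespace Pool.Agent.W908.RS

open Pool.Agent.NPC Pool.Agent.H620R2.Gauge Pool.Agent.H622R2 Finset H568R2 Pool.Agent.H676
open Pool.Agent.W908.PS (cmb gq cmb_congr length_gq pwd length_pwd ppos pwd_off pwd_on pe pe_inj
  infix_prob pwd_local idx_lt_pow tbl Rare markov pre_local)
open Pool.Agent.W908.QS (QAlg qgen qgen_surj qbd qbd_len qbd_ques acc_local cm cm_nonneg cm_le
  cm_Ex acc_close w1 w1_nonneg wW wW_nonneg wW_local mass_mono mass_sum mass_local okq qv qv_iff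
  bi length_bi Lb Lb_eval Lb_1 Lb_2 thr thr_pos sqrt_thr)
open Pool.Agent.W908.SP (mem_strsOf' card_strsOf' idx_inj Ex_owr Ex_unif_av unif_nn unif_sm)
open Pool.Agent.H591R3.PHG.Proj (owr owr_e owr_off owr_owr)
open Pool.Agent.H516R2.EQP3 (InB)

theorem infix_of_inB {u z : List Bool} (h : InB u z) : u <:+: z.tail := by
  obtain ⟨h1, -⟩ := h
  have h2 : z = false :: false :: u ++ z.drop (2 + u.length) := by
    rw [← h1, List.take_append_drop]
  rw [h2]
  exact ⟨[false], z.drop (2 + u.length), by simp⟩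

theorem exists_jT (T : ℕ) : ∃ j, T ≤ lev j := ⟨T, le_lev T⟩

/-- the number of the instances with passwords shorter than `T` -/
noncomputable def jT (T : ℕ) : ℕ := Nat.find (exists_jT T)

theorem jT_spec (T : ℕ) : T ≤ lev (jT T) := Nat.find_spec (exists_jT T)

theorem lev_lt {T i : ℕ} (h : i < jT T) : lev i < T := not_le.1 (Nat.find_min (exists_jT T) h)

/-- the oracle with the instances with passwords shorter than `T` -/
noncomputable def Bs (R : Oracle) (T : ℕ) : Oracle := cmb SolE (st R (jT T))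

theorem diffA {R : Oracle} {T : ℕ} (q : List Bool) (h : Bs R T q ≠ OC R q) : 1 ≤ wW R T q := by
  have h1 : GR R (gq q) ≠ st R (jT T) (gq q) := fun h2 => h (cmb_congr (fun _ _ => rfl) h2.symm)
  obtain ⟨i, h2, h3⟩ := GR_diff h1
  unfold wW
  rw [if_pos ⟨lev i, (jT_spec T).trans (lev_mono.monotone h2), infix_of_inB h3⟩]

theorem diffB {R : Oracle} {T n : ℕ} {P : Polynomial ℕ} (hP : 2 ^ (54 + 49 * T + 1) ≤ P.eval n)
    (q : List Bool) (h : Bs R T q ≠ cmb SolE (tabD (tbl P (GR R) n)) q) : 1 ≤ wW R T q := by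
  have h1 : st R (jT T) (gq q) ≠ tabD (tbl P (GR R) n) (gq q) :=
    fun h2 => h (cmb_congr (fun _ _ => rfl) h2)
  have hl : (tbl P (GR R) n).length = P.eval n := by simp [tbl]
  unfold tabD at h1
  rw [hl] at h1
  split_ifs at h1 with h2
  · have h3 : (tbl P (GR R) n).getD (idx (gq q)) false = GR R (gq q) := by
      rw [List.getD_eq_getElem _ _ (by rw [hl]; exact h2)]
      simp [tbl, str_idx]
    rw [h3] at h1
    obtain ⟨i, h4, h5⟩ := GR_diff h1.symm
    unfold wW
    rw [if_pos ⟨lev i, (jT_spec T).trans (lev_mono.monotone h4), infix_of_inB h5⟩]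
  · exfalso
    have h3 : st R (0 + jT T) (gq q) ≠ st R 0 (gq q) := by rw [zero_add]; exact h1
    obtain ⟨i, -, h4, h5⟩ := st_diff R 0 (gq q) (jT T) h3
    rw [zero_add] at h4
    have h6 := h5.2
    rw [blen_eq, length_pwd] at h6
    have h7 := lev_lt h4
    have h8 : idx (gq q) < 2 ^ (54 + 49 * T + 1) := idx_lt_pow (by omega)
    omega

/-- the weight of the questions of a circuit that contain a password of length at least `T` -/
noncomputable def Zg (R : Oracle) (T : ℕ) (c : List Unit × List Gate) : ℝ :=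
  cm (Bs R T) (wW R T) c

theorem Zg_nonneg (R : Oracle) (T : ℕ) (c : List Unit × List Gate) : 0 ≤ Zg R T c :=
  cm_nonneg (wW_nonneg R T) _ _

theorem closeA (R : Oracle) (T : ℕ) (c : List Unit × List Gate) :
    |accProb (Bs R T) c - accProb (OC R) c| ≤ 4 * Real.sqrt (c.2.length * Zg R T c) :=
  acc_close (wW_nonneg R T) diffA c

theorem closeB {R : Oracle} {T n : ℕ} {P : Polynomial ℕ} (hP : 2 ^ (54 + 49 * T + 1) ≤ P.eval n)
    (c : List Unit × List Gate) :
    |accProb (Bs R T) c - accProb (cmb SolE (tabD (tbl P (GR R) n))) c| ≤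
      4 * Real.sqrt (c.2.length * Zg R T c) :=
  acc_close (wW_nonneg R T) (diffB hP) c

theorem st_congr {R R' : Oracle} {j : ℕ} (h : ∀ i < j, pwd R (lev i) = pwd R' (lev i)) :
    st R j = st R' j := by
  induction j with
  | zero => rfl
  | succ j ih =>
    have h1 := ih fun i hi => h i (by omega)
    have h2 := h j (Nat.lt_succ_self j)
    show H516R2.EQP3.put _ _ _ = H516R2.EQP3.put _ _ _
    rw [h1, h2]

theorem Bs_off {m N T : ℕ} (hT : T ≤ m) (hN : 2 ^ (3 * m + 2) ≤ N) (a : Fin N → Bool)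
    (z : Fin m → Bool) : Bs (orc N (owr (pe hN) a z)) T = Bs (orc N a) T := by
  unfold Bs
  rw [st_congr fun i hi => pwd_off hN a z (by have := lev_lt hi; omega)]

/-- the expected weight -/
theorem cm_exp {N T B L : ℕ} (Bz : Oracle → Oracle) (c : Oracle → List Unit × List Gate)
    (hinv : ∀ m, T ≤ m → ∀ (hN : 2 ^ (3 * m + 2) ≤ N) (a : Fin N → Bool) (z : Fin m → Bool),
      Bz (orc N (owr (pe hN) a z)) = Bz (orc N a) ∧ c (orc N (owr (pe hN) a z)) = c (orc N a))
    (hB : ∀ a : Fin N → Bool, ∀ q k, Sum.inr (true, q, k) ∈ (c (orc N a)).2 → q.length ≤ B)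
    (hL : ∀ a : Fin N → Bool, (c (orc N a)).2.length ≤ L) (hN : 2 ^ (3 * B + 2) ≤ N) :
    Ex unif (fun a : Fin N → Bool => cm (Bz (orc N a)) (wW (orc N a) T) (c (orc N a))) ≤
      2 * (L * (B + 1)) * (1 / 2) ^ T := by
  classical
  have h1 : ∀ a : Fin N → Bool, cm (Bz (orc N a)) (wW (orc N a) T) (c (orc N a)) ≤
      ∑ d ∈ (range (B + 1)).filter (fun d => T + d ≤ B),
        cm (Bz (orc N a)) (w1 (orc N a) (T + d)) (c (orc N a)) := by
    intro a
    unfold cm
    rw [← mass_sum]
    refine mass_mono _ _ (fun q k hq y hy => ?_) _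
    have h2 := hB a q k hq
    unfold wW
    split_ifs with h3
    · obtain ⟨m, h4, h5⟩ := h3
      have h6 := h5.length_le
      have h7 := length_gq y
      rw [length_pwd, List.length_tail] at h6
      obtain ⟨d, rfl⟩ := Nat.exists_eq_add_of_le h4
      refine le_trans ?_ (Finset.single_le_sum (f := fun d => w1 (orc N a) (T + d) y)
        (fun d _ => w1_nonneg _ _ _) (Finset.mem_filter.2 ⟨Finset.mem_range.2
          (by omega : d < B + 1), by omega⟩))
      simp only [w1]
      rw [if_pos h5]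
    · exact Finset.sum_nonneg fun d _ => w1_nonneg _ _ _
  refine (Ex_mono unif_nn h1).trans ?_
  rw [Ex_sum]
  refine (Finset.sum_le_sum (g := fun d => (L * (B + 1) : ℝ) * (1 / 2) ^ T *
    (1 / 2) ^ d) fun d hd => ?_).trans ?_
  · have hd2 := (Finset.mem_filter.1 hd).2
    have hN2 : 2 ^ (3 * (T + d) + 2) ≤ N :=
      (Nat.pow_le_pow_right (by norm_num) (by omega)).trans hN
    rw [Ex_owr (pe hN2) (pe_inj hN2)]
    refine (Ex_mono unif_nn (G := fun _ => (L * (B + 1) : ℝ) * (1 / 2) ^ T *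
      (1 / 2) ^ d) fun a => ?_).trans (le_of_eq (Ex_const unif_sm _))
    have e1 : (fun z : Fin (T + d) → Bool => cm (Bz (orc N (owr (pe hN2) a z)))
        (w1 (orc N (owr (pe hN2) a z)) (T + d)) (c (orc N (owr (pe hN2) a z)))) =
        fun z => cm (Bz (orc N a))
          ((fun (z : Fin (T + d) → Bool) (q : List Bool) =>
            if List.ofFn z <:+: (gq q).tail then (1 : ℝ) else 0) z) (c (orc N a)) := by
      funext z
      rw [(hinv _ (by omega) hN2 a z).1, (hinv _ (by omega) hN2 a z).2]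
      congr 1
      funext q
      unfold w1
      rw [pwd_on]
    rw [e1, cm_Ex]
    refine (cm_le (δ := (B + 1) * (1 / 2) ^ (T + d)) (by positivity) _ _
      fun q k hq y hy => ?_).trans ?_
    · refine (infix_prob (T + d) _).trans ?_
      apply mul_le_mul_of_nonneg_right _ (by positivity)
      have h2 := hB a q k hq
      have h3 := length_gq y
      have h4 : ((gq y).tail.length : ℝ) ≤ B := by
        rw [List.length_tail]
        exact_mod_cast (by omega)
      linarith
    · have h5 : ((c (orc N a)).2.length : ℝ) ≤ L := by exact_mod_cast hL a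
      calc ((c (orc N a)).2.length : ℝ) * ((B + 1) * (1 / 2) ^ (T + d)) ≤
          L * ((B + 1) * (1 / 2) ^ (T + d)) := mul_le_mul_of_nonneg_right h5 (by positivity)
        _ = _ := by rw [pow_add]; ring
  · refine (Finset.sum_le_sum_of_subset_of_nonneg (Finset.filter_subset _ _)
      fun _ _ _ => by positivity).trans ?_
    rw [← Finset.mul_sum]
    have h2 := sum_geometric_two_le (B + 1)
    have h3 : 0 ≤ (L * (B + 1) : ℝ) * (1 / 2) ^ T := by positivity
    calc (L * (B + 1) : ℝ) * (1 / 2) ^ T * ∑ i ∈ range (B + 1), (1 / 2 : ℝ) ^ i ≤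
        (L * (B + 1) : ℝ) * (1 / 2) ^ T * 2 := mul_le_mul_of_nonneg_left h2 h3
      _ = _ := by ring

theorem Zg_local {R R' : Oracle} {B T : ℕ} {c : List Unit × List Gate} (hT : T ≤ B)
    (hB : ∀ q k, Sum.inr (true, q, k) ∈ c.2 → q.length ≤ B)
    (h : ∀ q : List Bool, q.length ≤ 3 * B + 2 → R q = R' q) : Zg R T c = Zg R' T c := by
  have e : Bs R T = Bs R' T := by
    unfold Bs
    rw [st_congr fun i hi => pwd_local h (by have := lev_lt hi; omega)]
  unfold Zg cm
  rw [e]
  refine mass_local _ (fun q k hq y hy => rfl) (fun q k hq y hy => ?_) _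
  exact wW_local h (by rw [hy]; exact hB q k hq)

theorem Bs_local {R R' : Oracle} {B T : ℕ} (hT : T ≤ B)
    (h : ∀ q : List Bool, q.length ≤ 3 * B + 2 → R q = R' q) : Bs R T = Bs R' T := by
  unfold Bs
  rw [st_congr fun i hi => pwd_local h (by have := lev_lt hi; omega)]

/-! ### The sampler and the circuits -/

/-- the circuits of the sampler ask too much -/
def Bad1 (R : Oracle) (T : ℕ) (D : QAlg × QAlg) (pG : Polynomial ℕ) (s : List Bool) : Prop :=
  ∃ i ≤ pG.eval s.length, thr ((Lb D pG).eval s.length) < Zg R T (D.1.C (bi s i)) ∨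
    thr ((Lb D pG).eval s.length) < Zg R T (D.2.C (bi s i))

/-- the sample, without the long passwords -/
noncomputable def xb (R : Oracle) (T : ℕ) (D : QAlg × QAlg) (pG : Polynomial ℕ) (s : List Bool) :
    List Bool :=
  if ((qv D (Bs R T) s).getD []).length ≤ pG.eval s.length then (qv D (Bs R T) s).getD [] else []

theorem xb_len (R : Oracle) (T : ℕ) (D : QAlg × QAlg) (pG : Polynomial ℕ) (s : List Bool) :
    (xb R T D pG s).length ≤ pG.eval s.length := by
  unfold xb
  split_ifs with h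
  · exact h
  · exact Nat.zero_le _

/-- the circuit for the sample asks too much -/
def Bad2 (R : Oracle) (T : ℕ) (D : QAlg × QAlg) (E : QAlg) (pG : Polynomial ℕ) (s : List Bool) :
    Prop := thr ((qbd E).eval (pG.eval s.length)) < Zg R T (E.C (xb R T D pG s))

theorem qbdE_1 (R : Oracle) (T : ℕ) (D : QAlg × QAlg) (E : QAlg) (pG : Polynomial ℕ)
    (s : List Bool) : (E.C (xb R T D pG s)).2.length ≤ (qbd E).eval (pG.eval s.length) :=
  (qbd_len E _).trans (eval_mono _ (xb_len R T D pG s))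

theorem qbdE_2 (R : Oracle) (T : ℕ) (D : QAlg × QAlg) (E : QAlg) (pG : Polynomial ℕ)
    (s : List Bool) : ∀ q k, Sum.inr (true, q, k) ∈ (E.C (xb R T D pG s)).2 →
      q.length ≤ (qbd E).eval (pG.eval s.length) :=
  fun q k hq => (qbd_ques E _ q k hq).trans (eval_mono _ (xb_len R T D pG s))

theorem good_sample {R : Oracle} {T : ℕ} {D : QAlg × QAlg} {pG : Polynomial ℕ} {s y : List Bool}
    (hy : y.length ≤ pG.eval s.length)
    (h1 : ∀ i, (i < y.length → 2 / 3 ≤ accProb (OC R) (D.1.C (bi s i))) ∧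
      (¬ i < y.length → accProb (OC R) (D.1.C (bi s i)) ≤ 1 / 3))
    (h2 : ∀ i, (y[i]? = some true → 2 / 3 ≤ accProb (OC R) (D.2.C (bi s i))) ∧
      (¬ y[i]? = some true → accProb (OC R) (D.2.C (bi s i)) ≤ 1 / 3))
    (h : ¬ Bad1 R T D pG s) : xb R T D pG s = y := by
  have h3 : qv D (Bs R T) s = some y := by
    rw [qv_iff]
    intro i hi
    have hi2 : i ≤ pG.eval s.length := hi.trans hy
    have hb : Zg R T (D.1.C (bi s i)) ≤ thr ((Lb D pG).eval s.length) ∧
        Zg R T (D.2.C (bi s i)) ≤ thr ((Lb D pG).eval s.length) := by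
      constructor
      · by_contra h3
        exact h ⟨i, hi2, Or.inl (not_le.1 h3)⟩
      · by_contra h3
        exact h ⟨i, hi2, Or.inr (not_le.1 h3)⟩
    have c1 := abs_le.1 ((closeA R T (D.1.C (bi s i))).trans
      (sqrt_thr (Lb_1 D pG hi2).1 (Zg_nonneg _ _ _) hb.1))
    have c2 := abs_le.1 ((closeA R T (D.2.C (bi s i))).trans
      (sqrt_thr (Lb_2 D pG hi2).1 (Zg_nonneg _ _ _) hb.2))
    constructor
    · constructor
      · intro h3
        by_contra h4
        have h5 := (h1 i).2 h4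
        linarith [c1.1, c1.2]
      · intro h3
        have h5 := (h1 i).1 h3
        linarith [c1.1, c1.2]
    · constructor
      · intro h3
        by_contra h4
        have h5 := (h2 i).2 h4
        linarith [c2.1, c2.2]
      · intro h3
        have h5 := (h2 i).1 h3
        linarith [c2.1, c2.2]
  unfold xb
  rw [h3]
  exact if_pos hy

theorem good_answer {R : Oracle} {T n : ℕ} {P : Polynomial ℕ}
    (hP : 2 ^ (54 + 49 * T + 1) ≤ P.eval n) {D : QAlg × QAlg} {E : QAlg} {pG : Polynomial ℕ}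
    {s : List Bool} (h : ¬ Bad2 R T D E pG s) :
    |accProb (OC R) (E.C (xb R T D pG s)) -
      accProb (cmb SolE (tabD (tbl P (GR R) n))) (E.C (xb R T D pG s))| ≤ 1 / 8 := by
  have hZ := not_lt.1 h
  have h1 := (closeA R T (E.C (xb R T D pG s))).trans
    (sqrt_thr (qbdE_1 R T D E pG s) (Zg_nonneg _ _ _) hZ)
  have h2 := (closeB hP (E.C (xb R T D pG s))).trans
    (sqrt_thr (qbdE_1 R T D E pG s) (Zg_nonneg _ _ _) hZ)
  rw [abs_le] at h1 h2 ⊢
  constructor <;> linarith [h1.1, h1.2, h2.1, h2.2]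

open Classical in
theorem bad_prob {N T : ℕ} (D : QAlg × QAlg) (E : QAlg) (pG : Polynomial ℕ) (s : List Bool)
    (hN : 2 ^ (3 * ((Lb D pG).eval s.length + (qbd E).eval (pG.eval s.length)) + 2) ≤ N) :
    Ex unif (fun a : Fin N → Bool =>
      if Bad1 (orc N a) T D pG s ∨ Bad2 (orc N a) T D E pG s then (1 : ℝ) else 0) ≤
      (16384 * (pG.eval s.length + 1) * ((Lb D pG).eval s.length + 1) ^ 3 +
        8192 * ((qbd E).eval (pG.eval s.length) + 1) ^ 3) * (1 / 2) ^ T := by
  set L := (Lb D pG).eval s.length with hL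
  set M := (qbd E).eval (pG.eval s.length) with hM
  have hN1 : 2 ^ (3 * L + 2) ≤ N := (Nat.pow_le_pow_right (by norm_num) (by omega)).trans hN
  have hN2 : 2 ^ (3 * M + 2) ≤ N := (Nat.pow_le_pow_right (by norm_num) (by omega)).trans hN
  have hnn : ∀ (a : Fin N → Bool) (i : ℕ), 0 ≤ (1 / thr L) * (Zg (orc N a) T (D.1.C (bi s i)) +
      Zg (orc N a) T (D.2.C (bi s i))) := fun a i => mul_nonneg (one_div_nonneg.2 (thr_pos L).le)
        (add_nonneg (Zg_nonneg _ _ _) (Zg_nonneg _ _ _))
  have h1 : ∀ a : Fin N → Bool, (if Bad1 (orc N a) T D pG s ∨ Bad2 (orc N a) T D E pG s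
      then (1 : ℝ) else 0) ≤
      (∑ i ∈ range (pG.eval s.length + 1), (1 / thr L) * (Zg (orc N a) T (D.1.C (bi s i)) +
        Zg (orc N a) T (D.2.C (bi s i)))) +
      1 / thr M * Zg (orc N a) T (E.C (xb (orc N a) T D pG s)) := by
    intro a
    have h0 : 0 ≤ 1 / thr M * Zg (orc N a) T (E.C (xb (orc N a) T D pG s)) :=
      mul_nonneg (one_div_nonneg.2 (thr_pos M).le) (Zg_nonneg _ _ _)
    split_ifs with h
    · rcases h with h | h
      · obtain ⟨i, hi, h2⟩ := h
        have h5 := Finset.single_le_sum (f := fun i => (1 / thr L) *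
          (Zg (orc N a) T (D.1.C (bi s i)) + Zg (orc N a) T (D.2.C (bi s i))))
          (fun i _ => hnn a i) (Finset.mem_range.2 (Nat.lt_succ_of_le hi))
        rw [← hL] at h2
        have h3 := Zg_nonneg (orc N a) T (D.1.C (bi s i))
        have h4 := Zg_nonneg (orc N a) T (D.2.C (bi s i))
        have h6 : 1 ≤ (1 / thr L) *
          (Zg (orc N a) T (D.1.C (bi s i)) + Zg (orc N a) T (D.2.C (bi s i))) := by
          rw [one_div, inv_mul_eq_div, le_div_iff₀ (thr_pos L), one_mul]
          rcases h2 with h2 | h2 <;> linarith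
        linarith
      · have h5 : 0 ≤ ∑ i ∈ range (pG.eval s.length + 1), (1 / thr L) *
          (Zg (orc N a) T (D.1.C (bi s i)) + Zg (orc N a) T (D.2.C (bi s i))) :=
          Finset.sum_nonneg fun i _ => hnn a i
        have h6 : 1 ≤ 1 / thr M * Zg (orc N a) T (E.C (xb (orc N a) T D pG s)) := by
          rw [one_div, inv_mul_eq_div, le_div_iff₀ (thr_pos M), one_mul]
          exact h.le
        linarith
    · exact add_nonneg (Finset.sum_nonneg fun i _ => hnn a i) h0
  refine (Ex_mono unif_nn h1).trans ?_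
  rw [Ex_add, Ex_sum, add_mul]
  have hLL : (0 : ℝ) ≤ L := Nat.cast_nonneg _
  have hMM : (0 : ℝ) ≤ M := Nat.cast_nonneg _
  refine add_le_add ((Finset.sum_le_sum (g := fun _ => 16384 * ((L : ℝ) + 1) ^ 3 * (1 / 2) ^ T)
    fun i hi => ?_).trans ?_) ?_
  · rw [Finset.mem_range, Nat.lt_succ_iff] at hi
    rw [Ex_smul, Ex_add]
    have h2 := cm_exp (N := N) (T := T) (B := L) (L := L) (fun R => Bs R T)
      (fun _ => D.1.C (bi s i)) (fun m hm hN a z => ⟨Bs_off hm hN a z, rfl⟩)
      (fun _ => (Lb_1 D pG hi).2) (fun _ => (Lb_1 D pG hi).1) hN1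
    have h3 := cm_exp (N := N) (T := T) (B := L) (L := L) (fun R => Bs R T)
      (fun _ => D.2.C (bi s i)) (fun m hm hN a z => ⟨Bs_off hm hN a z, rfl⟩)
      (fun _ => (Lb_2 D pG hi).2) (fun _ => (Lb_2 D pG hi).1) hN1
    have h6 : 2 * ((L : ℝ) * (L + 1)) * (1 / 2) ^ T ≤ 2 * (((L : ℝ) + 1) * (L + 1)) *
        (1 / 2) ^ T := by
      apply mul_le_mul_of_nonneg_right _ (by positivity)
      apply mul_le_mul_of_nonneg_left _ (by norm_num)
      exact mul_le_mul_of_nonneg_right (by linarith) (by positivity)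
    calc 1 / thr L * (Ex unif (fun a : Fin N → Bool => Zg (orc N a) T (D.1.C (bi s i))) +
        Ex unif (fun a : Fin N → Bool => Zg (orc N a) T (D.2.C (bi s i)))) ≤
        1 / thr L * (2 * (((L : ℝ) + 1) * (L + 1)) * (1 / 2) ^ T +
          2 * (((L : ℝ) + 1) * (L + 1)) * (1 / 2) ^ T) := by
          apply mul_le_mul_of_nonneg_left _ (one_div_nonneg.2 (thr_pos L).le)
          exact add_le_add (h2.trans h6) (h3.trans h6)
      _ = 16384 * ((L : ℝ) + 1) ^ 3 * (1 / 2) ^ T := by
          unfold thr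
          rw [one_div_one_div]
          ring
  · rw [Finset.sum_const, Finset.card_range, nsmul_eq_mul]
    push_cast
    refine le_of_eq ?_
    ring
  · rw [Ex_smul]
    have h2 := cm_exp (N := N) (T := T) (B := M) (L := M) (fun R => Bs R T)
      (fun R => E.C (xb R T D pG s)) (fun m hm hN a z => ⟨Bs_off hm hN a z, by
        unfold xb
        rw [Bs_off hm hN a z]⟩)
      (fun a => qbdE_2 (orc N a) T D E pG s) (fun a => qbdE_1 (orc N a) T D E pG s) hN2
    have h6 : 2 * ((M : ℝ) * (M + 1)) * (1 / 2) ^ T ≤ 2 * (((M : ℝ) + 1) * (M + 1)) *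
        (1 / 2) ^ T := by
      apply mul_le_mul_of_nonneg_right _ (by positivity)
      apply mul_le_mul_of_nonneg_left _ (by norm_num)
      exact mul_le_mul_of_nonneg_right (by linarith) (by positivity)
    calc 1 / thr M * Ex unif (fun a : Fin N → Bool =>
          Zg (orc N a) T (E.C (xb (orc N a) T D pG s))) ≤
        1 / thr M * (2 * (((M : ℝ) + 1) * (M + 1)) * (1 / 2) ^ T) := by
          apply mul_le_mul_of_nonneg_left _ (one_div_nonneg.2 (thr_pos M).le)
          exact h2.trans h6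
      _ = 8192 * ((M : ℝ) + 1) ^ 3 * (1 / 2) ^ T := by
          unfold thr
          rw [one_div_one_div]
          ring

end Pool.Agent.W908.RS
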