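import Pool.Agent.W908.R.R3

/-!
# The bad samples are rare
-/

set_option autoImplicit false

namespace Pool.Agent.W908.RS

open Pool.Agent.NPC Pool.Agent.H620R2.Gauge Pool.Agent.H622R2 Finset H568R2 Pool.Agent.H676
open Pool.Agent.W908.PS (cmb gq cmb_congr length_gq pwd length_pwd ppos pwd_off pwd_on pe pe_inj
  infix_prob pwd_local idx_lt_pow tbl Rare markov pre_local)
open Pool.Agent.W908.QS (QAlg qgen qgen_surj qbd qbd_len qbd_ques acc_local cm cm_nonneg cm_le
  cm_Ex acc_close w1 w1_nonneg wW wW_nonneg wW_local mass_mono mass_sum mass_local okq qv qv_iff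
  bi length_bi Lb Lb_eval Lb_1 Lb_2 thr thr_pos sqrt_thr)
open Pool.Agent.W908.SP (mem_strsOf' card_strsOf' idx_inj Ex_owr Ex_unif_av unif_nn unif_sm)

/-- the input of the sampler -/
def sin (n : ℕ) (r : List Bool) : List Bool := pairBits (List.replicate n true) r

/-- the length of the input of the sampler -/
noncomputable def sl (q : Polynomial ℕ) : Polynomial ℕ := Polynomial.C 2 * Polynomial.X + q + 1

theorem sl_eval (q : Polynomial ℕ) (n : ℕ) : (sl q).eval n = 2 * n + q.eval n + 1 := by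
  simp [sl]

theorem length_sin {q : Polynomial ℕ} {n : ℕ} {r : List Bool} (h : r.length = q.eval n) :
    (sin n r).length = (sl q).eval n := by
  unfold sin
  rw [A2.length_pairBits, List.length_replicate, sl_eval, h]

/-- a bound for the circuits -/
noncomputable def Mb (D : QAlg × QAlg) (E : QAlg) (pG q : Polynomial ℕ) : Polynomial ℕ :=
  (Lb D pG).comp (sl q) + ((qbd E).comp pG).comp (sl q)

theorem Mb_eval (D : QAlg × QAlg) (E : QAlg) (pG q : Polynomial ℕ) (n : ℕ) :
    (Mb D E pG q).eval n = (Lb D pG).eval ((sl q).eval n) +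
      (qbd E).eval (pG.eval ((sl q).eval n)) := by
  simp [Mb, Polynomial.eval_comp]

theorem Bad_local {R R' : Oracle} {T B : ℕ} {D : QAlg × QAlg} {E : QAlg} {pG : Polynomial ℕ}
    {s : List Bool} (hT : T ≤ B) (hB : (Lb D pG).eval s.length +
      (qbd E).eval (pG.eval s.length) ≤ B)
    (h : ∀ q : List Bool, q.length ≤ 3 * B + 2 → R q = R' q)
    (h1 : Bad1 R T D pG s ∨ Bad2 R T D E pG s) : Bad1 R' T D pG s ∨ Bad2 R' T D E pG s := by
  have e0 := Bs_local hT h
  rcases h1 with ⟨i, hi, h2⟩ | h2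
  · refine Or.inl ⟨i, hi, ?_⟩
    rw [← Zg_local hT (fun q k hq => ((Lb_1 D pG hi).2 q k hq).trans (by omega)) h,
      ← Zg_local hT (fun q k hq => ((Lb_2 D pG hi).2 q k hq).trans (by omega)) h]
    exact h2
  · refine Or.inr ?_
    unfold Bad2 at h2 ⊢
    have e1 : xb R T D pG s = xb R' T D pG s := by
      unfold xb
      rw [e0]
    rw [e1] at h2
    rw [← Zg_local hT (fun q k hq => (qbdE_2 R' T D E pG s q k hq).trans (by omega)) h]
    exact h2

open Classical in
/-- the number of the bad random strings -/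
noncomputable def nbA (R : Oracle) (D : QAlg × QAlg) (E : QAlg) (pG q : Polynomial ℕ) (T n : ℕ) :
    ℕ := ((strsOf (q.eval n)).filter (fun r => Bad1 R T D pG (sin n r) ∨
      Bad2 R T D E pG (sin n r))).card

theorem nbA_local {R R' : Oracle} {T B n : ℕ} {D : QAlg × QAlg} {E : QAlg} {pG q : Polynomial ℕ}
    (hT : T ≤ B) (hB : (Mb D E pG q).eval n ≤ B)
    (h : ∀ q : List Bool, q.length ≤ 3 * B + 2 → R q = R' q) :
    nbA R D E pG q T n ≤ nbA R' D E pG q T n := by
  classical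
  unfold nbA
  refine Finset.card_le_card fun x hx => ?_
  obtain ⟨h1, h2⟩ := Finset.mem_filter.1 hx
  refine Finset.mem_filter.2 ⟨h1, Bad_local hT ?_ h h2⟩
  rw [length_sin (mem_strsOf'.1 h1), ← Mb_eval]
  exact hB

/-- the coefficient -/
noncomputable def Cb (D : QAlg × QAlg) (E : QAlg) (pG q : Polynomial ℕ) : Polynomial ℕ :=
  Polynomial.C 16384 * (pG.comp (sl q) + 1) * ((Lb D pG).comp (sl q) + 1) ^ 3 +
    Polynomial.C 8192 * (((qbd E).comp pG).comp (sl q) + 1) ^ 3

theorem Cb_eval (D : QAlg × QAlg) (E : QAlg) (pG q : Polynomial ℕ) (n : ℕ) :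
    (Cb D E pG q).eval n = 16384 * (pG.eval ((sl q).eval n) + 1) *
      ((Lb D pG).eval ((sl q).eval n) + 1) ^ 3 +
      8192 * ((qbd E).eval (pG.eval ((sl q).eval n)) + 1) ^ 3 := by
  simp [Cb, Polynomial.eval_comp]

theorem nbA_exp {N T n : ℕ} (D : QAlg × QAlg) (E : QAlg) (pG q : Polynomial ℕ)
    (hN : 2 ^ (3 * (Mb D E pG q).eval n + 2) ≤ N) :
    Ex unif (fun a : Fin N → Bool => (nbA (orc N a) D E pG q T n : ℝ)) ≤
      2 ^ (q.eval n) * ((Cb D E pG q).eval n * (1 / 2) ^ T) := by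
  classical
  have h1 : (fun a : Fin N → Bool => (nbA (orc N a) D E pG q T n : ℝ)) =
      fun a => ∑ r ∈ strsOf (q.eval n), if Bad1 (orc N a) T D pG (sin n r) ∨
        Bad2 (orc N a) T D E pG (sin n r) then (1 : ℝ) else 0 := by
    funext a
    unfold nbA
    rw [Finset.sum_boole]
  rw [h1, Ex_sum]
  refine (Finset.sum_le_sum (g := fun _ => (((Cb D E pG q).eval n : ℕ) : ℝ) * (1 / 2) ^ T)
    fun r hr => ?_).trans ?_
  · have hl := length_sin (q := q) (mem_strsOf'.1 hr)
    have h2 := bad_prob (N := N) (T := T) D E pG (sin n r) (by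
      rw [hl, ← Mb_eval]
      exact hN)
    refine h2.trans (le_of_eq ?_)
    rw [hl, Cb_eval]
    push_cast
    ring
  · rw [Finset.sum_const, nsmul_eq_mul, card_strsOf']
    push_cast
    exact le_rfl

/-- the quantum sampler and the quantum decider are simulated -/
def GoodA (D : QAlg × QAlg) (E : QAlg) (pG q : Polynomial ℕ) (c : ℕ) (R : Oracle) : Prop :=
  ∃ (P : Polynomial ℕ) (T : ℕ → ℕ), (∀ n, 2 ^ (54 + 49 * T n + 1) ≤ P.eval n) ∧
    ∀ n : ℕ, (n + 1) ^ c * nbA R D E pG q (T n) n ≤ 2 ^ (q.eval n)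

theorem rare_goodA (D : QAlg × QAlg) (E : QAlg) (pG q : Polynomial ℕ) (c : ℕ) :
    Rare {R | ¬ GoodA D E pG q c R} := by
  classical
  intro K hK
  obtain ⟨P₁, hP₁⟩ : ∃ P₁ : Polynomial ℕ, P₁ = Polynomial.C (2 * K) * Cb D E pG q *
      (Polynomial.X + 1) ^ c * ((Polynomial.X + 1) * (Polynomial.X + 2)) + 1 :=
    ⟨_, rfl⟩
  have hPe : ∀ n, P₁.eval n = 2 * K * (Cb D E pG q).eval n *
      (n + 1) ^ c * ((n + 1) * (n + 2)) + 1 := by
    intro n
    rw [hP₁]
    simp
  refine ⟨fun n => 2 ^ (3 * ((Mb D E pG q).eval n + Nat.log 2 (P₁.eval n)) + 2 + 1), fun n a =>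
    2 ^ (q.eval n) < (n + 1) ^ c * nbA (orc _ a) D E pG q (Nat.log 2 (P₁.eval n)) n, fun n => ?_,
    fun W hW => ?_⟩
  · set T := Nat.log 2 (P₁.eval n) with hT
    have h1 := nbA_exp (N := 2 ^ (3 * ((Mb D E pG q).eval n + T) + 2 + 1)) (T := T) (n := n)
      D E pG q (Nat.pow_le_pow_right (by norm_num) (by omega))
    have h2 := markov (fun a : Fin (2 ^ (3 * ((Mb D E pG q).eval n + T) + 2 + 1)) → Bool =>
      (nbA (orc _ a) D E pG q T n : ℝ)) (fun a => by positivity)
      (l := 2 ^ (q.eval n) / (n + 1) ^ c) (by positivity)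
    refine le_trans (Ex_mono unif_nn (G := fun a : Fin (2 ^ (3 * ((Mb D E pG q).eval n + T) + 2 +
        1)) → Bool => if (2 : ℝ) ^ (q.eval n) / (n + 1) ^ c <
        (nbA (orc _ a) D E pG q T n : ℝ) then (1 : ℝ) else 0) fun a => ?_) ?_
    · by_cases h3 : 2 ^ (q.eval n) < (n + 1) ^ c * nbA (orc _ a) D E pG q T n
      · have h4 : (2 : ℝ) ^ (q.eval n) < (n + 1) ^ c * (nbA (orc _ a) D E pG q T n : ℝ) := by
          exact_mod_cast h3
        rw [if_pos h3, if_pos]
        rw [div_lt_iff₀ (by positivity), mul_comm]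
        exact h4
      · rw [if_neg h3]
        split_ifs <;> norm_num
    refine h2.trans ((div_le_div_of_nonneg_right h1 (by positivity)).trans ?_)
    have h5 : P₁.eval n < 2 ^ (T + 1) := Nat.lt_pow_succ_log_self (by norm_num) _
    have h6 : (2 * K * ((Cb D E pG q).eval n : ℕ) *
      (n + 1) ^ c * ((n + 1) * (n + 2)) : ℝ) ≤ 2 ^ (T + 1) := by
      have : 2 * K * (Cb D E pG q).eval n *
        (n + 1) ^ c * ((n + 1) * (n + 2)) ≤ 2 ^ (T + 1) := by
        have := hPe n
        omega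
      exact_mod_cast this
    have hKR : (0 : ℝ) < K := by exact_mod_cast hK
    rw [div_div_eq_mul_div, div_le_div_iff₀ (by positivity) (by positivity)]
    have h7 : (2 : ℝ) ^ (q.eval n) * (((Cb D E pG q).eval n : ℕ) *
        (1 / 2) ^ T) * (n + 1) ^ c * (K * ((n + 1) * (n + 2))) =
        2 ^ (q.eval n) * ((2 * K * ((Cb D E pG q).eval n : ℕ) *
      (n + 1) ^ c * ((n + 1) * (n + 2)) : ℝ) / 2 * (1 / 2) ^ T) := by ring
    rw [h7, one_mul]
    have h8 : (2 * K * ((Cb D E pG q).eval n : ℕ) *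
      (n + 1) ^ c * ((n + 1) * (n + 2)) : ℝ) / 2 * (1 / 2) ^ T ≤ 1 := by
      calc _ ≤ (2 : ℝ) ^ (T + 1) / 2 * (1 / 2) ^ T := by
            apply mul_le_mul_of_nonneg_right _ (by positivity)
            exact div_le_div_of_nonneg_right h6 (by norm_num)
        _ = 1 := by
            rw [pow_succ, mul_div_assoc, div_self (by norm_num), mul_one, ← mul_pow]
            norm_num
    calc _ ≤ (2 : ℝ) ^ (q.eval n) * 1 := mul_le_mul_of_nonneg_left h8 (by positivity)
      _ = 2 ^ (q.eval n) := mul_one _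
  · by_contra hcon
    push Not at hcon
    refine hW ⟨Polynomial.C (2 ^ 55) * P₁ ^ 49, fun n => Nat.log 2 (P₁.eval n), fun n => ?_,
      fun n => ?_⟩
    · have h1 : 2 ^ Nat.log 2 (P₁.eval n) ≤ P₁.eval n :=
        Nat.pow_log_le_self 2 (by rw [hPe]; exact Nat.succ_ne_zero _)
      have h2 : (Polynomial.C (2 ^ 55) * P₁ ^ 49 : Polynomial ℕ).eval n =
          2 ^ 55 * (P₁.eval n) ^ 49 := by
        rw [Polynomial.eval_mul, Polynomial.eval_C, Polynomial.eval_pow]
      rw [h2]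
      have h3 : 2 ^ (54 + 49 * Nat.log 2 (P₁.eval n) + 1) =
          2 ^ 55 * (2 ^ Nat.log 2 (P₁.eval n)) ^ 49 := by
        rw [← pow_mul, ← pow_add]
        congr 1
        ring
      rw [h3]
      exact Nat.mul_le_mul le_rfl (Nat.pow_le_pow_left h1 49)
    · refine le_trans (Nat.mul_le_mul_left _ (nbA_local
        (B := (Mb D E pG q).eval n + Nat.log 2 (P₁.eval n)) (Nat.le_add_left _ _)
        (Nat.le_add_right _ _) fun q hq => ?_)) (hcon n)
      exact (pre_local W le_rfl hq).symm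

end Pool.Agent.W908.RS
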