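import Pool.Agent.W908.R.R4
import Pool.Agent.W908.R.RDefs
import Pool.Agent.W908.Q.Q8

/-! All together. -/

set_option autoImplicit false

namespace Pool.Agent.W908.RS

open Pool.Agent.NPC Pool.Agent.H620R2.Gauge Pool.Agent.H622R2 Finset H568R2 Pool.Agent.H676
open Pool.Agent.W908.PS (cmb gq tbl Rare exists_good)
open Pool.Agent.W908.QS (QAlg qgen qgen_surj qbd bi Lb IsFBQP bi_mem)
open Pool.Agent.W908.SP (mem_strsOf' card_strsOf')
open Pool.Agent.H516R2.EQP (IsEQP)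

theorem exists_RC : ∃ R : Oracle, ∀ D E pG q c, GoodA D E pG q c R := by
  have h1 := CC.poly_countable
  obtain ⟨R, hR⟩ := exists_good
    (Θ := ((QAlg × QAlg) × QAlg) × (Polynomial ℕ × Polynomial ℕ) × ℕ)
    (fun t => {R | ¬ GoodA t.1.1 t.1.2 t.2.1.1 t.2.1.2 t.2.2 R})
    (fun t => rare_goodA t.1.1 t.1.2 t.2.1.1 t.2.1.2 t.2.2)
  exact ⟨R, fun D E pG q c => not_not.1 (hR ((D, E), (pG, q), c))⟩

theorem easyOnSamples {R : Oracle} (hR : ∀ D E pG q c, GoodA D E pG q c R)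
    {L : Set (List Bool)} (hL : IsBQP (OC R) L) {G : List Bool → List Bool}
    (hG : IsFBQP (OC R) G) (q : Polynomial ℕ) (c : ℕ) : EasyOnSamples (OC R) L G q c := by
  classical
  obtain ⟨⟨pG, hpG⟩, ⟨C₁, hC₁, h1⟩, C₂, hC₂, h2⟩ := hG
  obtain ⟨C₃, hC₃, h3⟩ := hL
  obtain ⟨D, hD⟩ : ∃ D : QAlg × QAlg, D = (⟨C₁, hC₁⟩, ⟨C₂, hC₂⟩) := ⟨_, rfl⟩
  obtain ⟨E, hE⟩ : ∃ E : QAlg, E = ⟨C₃, hC₃⟩ := ⟨_, rfl⟩
  obtain ⟨e, he⟩ := qgen_surj (E, E)
  obtain ⟨P, T, hP, hbad⟩ := hR D E pG q c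
  have g1 : ∀ x i, (i < (G x).length → 2 / 3 ≤ accProb (OC R) (D.1.C (bi x i))) ∧
      (¬ i < (G x).length → accProb (OC R) (D.1.C (bi x i)) ≤ 1 / 3) := by
    intro x i
    rw [hD]
    constructor
    · intro h
      exact (h1 (bi x i)).1 (bi_mem (F := fun _ => True).2 h)
    · intro h
      exact (h1 (bi x i)).2 fun h3 => h (bi_mem (F := fun _ => True).1 h3)
  have g2 : ∀ x i, ((G x)[i]? = some true → 2 / 3 ≤ accProb (OC R) (D.2.C (bi x i))) ∧
      (¬ (G x)[i]? = some true → accProb (OC R) (D.2.C (bi x i)) ≤ 1 / 3) := by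
    intro x i
    rw [hD]
    constructor
    · intro h
      exact (h2 (bi x i)).1 (bi_mem (F := fun _ => True)
        (Q := fun x i => (G x)[i]? = some true).2 h)
    · intro h
      exact (h2 (bi x i)).2 fun h3 => h (bi_mem (F := fun _ => True)
        (Q := fun x i => (G x)[i]? = some true).1 h3)
  refine ⟨evl e (qbd (qgen e).1 + 1) P (GR R), isFP_evl e _ P (GR R), fun n => ?_⟩
  set S : Set (Fin (q.eval n) → Bool) := {r | evl e (qbd (qgen e).1 + 1) P (GR R)
    (pairBits (List.replicate n true) (G (pairBits (List.replicate n true) (List.ofFn r)))) =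
      [true] ↔ G (pairBits (List.replicate n true) (List.ofFn r)) ∈ L} with hS
  set B := (strsOf (q.eval n)).filter (fun r => Bad1 R (T n) D pG (sin n r) ∨
      Bad2 R (T n) D E pG (sin n r)) with hB
  have hb : (n + 1) ^ c * B.card ≤ 2 ^ (q.eval n) := hbad n
  have key : ∀ r : Fin (q.eval n) → Bool, List.ofFn r ∉ B → r ∈ S := by
    intro r hr
    have hr2 : ¬ (Bad1 R (T n) D pG (sin n (List.ofFn r)) ∨
        Bad2 R (T n) D E pG (sin n (List.ofFn r))) := by
      intro h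
      exact hr (Finset.mem_filter.2 ⟨mem_strsOf'.2 (List.length_ofFn ..), h⟩)
    rw [not_or] at hr2
    have e1 : xb R (T n) D pG (sin n (List.ofFn r)) = G (sin n (List.ofFn r)) :=
      good_sample (hpG _) (g1 _) (g2 _) hr2.1
    have e2 := good_answer (hP n) hr2.2
    rw [e1] at e2
    rw [hS, Set.mem_ofPred_eq, evl_val, he]
    have e3 := h3 (G (sin n (List.ofFn r)))
    have hEC : C₃ = E.C := by rw [hE]
    rw [hEC] at e3
    have e4 := abs_le.1 e2
    constructor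
    · intro h
      by_contra h5
      have h6 := e3.2 h5
      have h7 : (1 / 2 : ℝ) ≤ accProb (cmb SolE (tabD (tbl P (GR R) n)))
          (E.C (G (sin n (List.ofFn r)))) := by
        have h8 := (List.cons.inj h).1
        exact of_decide_eq_true h8
      linarith [e4.1, e4.2]
    · intro h
      have h6 := e3.1 h
      have h7 : (1 / 2 : ℝ) ≤ accProb (cmb SolE (tabD (tbl P (GR R) n)))
          (E.C (G (sin n (List.ofFn r)))) := by
        linarith [e4.1, e4.2]
      have h8 : decide ((1 / 2 : ℝ) ≤ accProb (cmb SolE (tabD (tbl P (GR R) n)))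
          (E.C (G (sin n (List.ofFn r))))) = true := decide_eq_true h7
      exact congrArg (fun b => [b]) h8
  have h3 : Sᶜ.ncard ≤ B.card := by
    rw [← Set.ncard_coe_finset]
    refine Set.ncard_le_ncard_of_injOn (fun t => List.ofFn t) ?_ ?_ (Finset.finite_toSet _)
    · intro r hr
      by_contra h
      exact hr (key r h)
    · intro t _ t' _ h
      exact List.ofFn_injective h
  have h4 := Set.ncard_add_ncard_compl S
  have h5 : Nat.card (Fin (q.eval n) → Bool) = 2 ^ (q.eval n) := by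
    rw [Nat.card_eq_fintype_card]
    simp
  rw [h5] at h4
  have h6 : (n + 1) ^ c * Sᶜ.ncard ≤ 2 ^ (q.eval n) := (Nat.mul_le_mul_left _ h3).trans hb
  have h7 : ((n : ℝ) + 1) ^ c * (Sᶜ.ncard : ℝ) ≤ 2 ^ (q.eval n) := by exact_mod_cast h6
  have h8 : (S.ncard : ℝ) + (Sᶜ.ncard : ℝ) = 2 ^ (q.eval n) := by exact_mod_cast h4
  have h9 : (Sᶜ.ncard : ℝ) ≤ 1 / ((n : ℝ) + 1) ^ c * 2 ^ (q.eval n) := by
    rw [one_div, inv_mul_eq_div, le_div_iff₀ (by positivity), mul_comm]
    exact h7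
  rw [sub_mul, one_mul]
  linarith

/-- Quantum advantage in the worst case only. -/
theorem main : ∃ O : Oracle,
    (∃ L : Set (List Bool), IsEQP 6 O L ∧ ¬ IsPH O L) ∧
    ∀ L : Set (List Bool), IsBQP O L → ∀ G : List Bool → List Bool, IsFBQP O G →
      ∀ (q : Polynomial ℕ) (c : ℕ), EasyOnSamples O L G q c := by
  obtain ⟨R, hR⟩ := exists_RC
  exact ⟨OC R, ⟨LC R, isEQP_LC R, not_isPH_LC R⟩,
    fun L hL G hG q c => easyOnSamples hR hL hG q c⟩

end Pool.Agent.W908.RS
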